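import Pool.Agent.Y29.UR.Data

namespace Pool.Agent.Y29.UR

open Pool.Agent.Y29.UQ

set_option linter.unusedSectionVars false
set_option linter.unusedVariables false

variable {f k m : ℕ}

/-- Vanishing to order `N`. -/
def Van (N : ℕ) (g : E f) : Prop :=
  (∀ j, 2 * j < N → g.a j = 0) ∧ ∀ j, 2 * j + 1 < N → g.b j = 0

lemma Van.ph {N : ℕ} {g : E f} (h : Van N g) : Van N (ph k g) := by
  refine ⟨fun j hj => ?_, fun j hj => ?_⟩
  · simp only [UR.ph]
    split_ifs
    · exact h.1 _ (by omega)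
    · rfl
  · simp only [UR.ph]
    split_ifs
    · exact h.2 _ (by omega)
    · rfl

lemma Van.sx {N : ℕ} {g : E f} (h : Van (N + 1) g) : Van N (sx k g) := by
  refine ⟨fun j hj => ?_, fun j hj => ?_⟩
  · simp only [UR.sx]
    split_ifs
    · exact h.2 _ (by omega)
    · rfl
  · exact h.1 _ (by omega)

lemma Van.sy {N : ℕ} {g : E f} (h : Van (N + 1) g) : Van N (sy k g) := by
  refine ⟨fun j hj => ?_, fun j hj => ?_⟩
  · exact h.2 _ (by omega)
  · simp only [UR.sy]
    split_ifs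
    · exact h.1 _ (by omega)
    · rfl

/-- Group elements which vanish to high order act trivially on short words. -/
lemma ta_triv : ∀ (l : List (Y f m)) (g : E f), Van l.length g → ta (S f k m) g l = l
  | [], g, h => rfl
  | Sum.inl x :: l, g, h => by
      have h1 : ta (S f k m) g (Sum.inl x :: l) =
        Sum.inl (x + g.a 0) :: ta (S f k m) (sx k g) l := rfl
      rw [h1, ta_triv l _ (Van.sx h), h.1 0 (by simp), add_zero]
  | Sum.inr x :: l, g, h => by
      have h1 : ta (S f k m) g (Sum.inr x :: l) =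
        Sum.inr x :: ta (S f k m) (sy k g) l := rfl
      rw [h1, ta_triv l _ (Van.sy h)]

lemma A_triv (s : P (S f k m)) (g : E f) (h : Van (rk s) g) : A g s = s := by
  have h1 : ∀ i : ℕ, Van (rk s) ((ph k)^[i] g) := by
    intro i
    induction i with
    | zero => exact h
    | succ i ih =>
      rw [Function.iterate_succ_apply']
      exact ih.ph
  refine P.ext rfl ?_
  have h2 := h1 s.n
  exact ta_triv _ _ ⟨fun j hj => h2.1 j (by unfold rk; omega),
    fun j hj => h2.2 j (by unfold rk; omega)⟩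

/-- The delta series in the second coordinate. -/
def est (j : ℕ) (c : ZMod f) : E f := ⟨fun _ => 0, fun n => if n = j then c else 0⟩

lemma Van_est (j : ℕ) (c : ZMod f) : Van (2 * j + 1) (est j c) := by
  refine ⟨fun i hi => rfl, fun i hi => ?_⟩
  have : i ≠ j := by omega
  simp [est, this]

lemma sx_ph_gx (hk : 1 ≤ k) (x : ZMod f) : sx k (ph k (gx x)) = est (k - 1) x := by
  ext n
  · simp [sx, ph, gx, est]
  · simp only [sx, ph, gx, est]
    by_cases h : n = k - 1
    · rw [if_pos (by omega), if_pos (by omega), if_pos h]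
    · rw [if_neg h]
      split_ifs
      · omega
      · rfl
      · rfl

/-- The key formula. -/
lemma A_gx (hk : 1 ≤ k) (x : ZMod f) (s : P (S f k m)) :
    A (ph k (gx x)) (T (Sum.inl x) s) = T (Sum.inl 0) (A (est (k - 1) x) s) := by
  have h0 : (ph k (gx x)).a 0 = 0 := by
    have : ¬ (k ≤ 0) := by omega
    simp [ph, this]
  have h1 : (S f k m).sm (ph k (gx x)) ((S f k m).bp (Sum.inl x)) =
      (S f k m).bp (Sum.inl x) := by
    change Sum.inl ((0 : ZMod f) + (ph k (gx x)).a 0) = Sum.inl 0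
    rw [h0, add_zero]
  have h2 : (S f k m).sec (ph k (gx x)) ((S f k m).bp (Sum.inl x)) = sx k (ph k (gx x)) := rfl
  rw [A_T h1, h2, sx_ph_gx hk]
  exact T_congr rfl _

lemma A_gx_short (hk : 1 ≤ k) (x : ZMod f) (s : P (S f k m)) (hs : rk s ≤ 2 * k - 1) :
    A (ph k (gx x)) (T (Sum.inl x) s) = T (Sum.inl 0) s := by
  rw [A_gx hk, A_triv]
  have h := Van_est (k - 1) x
  exact ⟨fun j hj => h.1 j (by omega), fun j hj => h.2 j (by omega)⟩

lemma D_lt' (y : Y f m) (r s : P (S f k m)) (h : D r = sh 1 s) :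
    D (lt y r) = sh 1 (A ((S f k m).phi ((S f k m).gx y)) (T y s)) := by
  rw [D_lt, h, lt_sh]

lemma D_at (y : Y f m) : D (at' y : P (S f k m)) =
    sh 1 (A ((S f k m).phi ((S f k m).gx y)) (T y bt)) := by
  have h1 : (at' y : P (S f k m)) = lt y bt := by rw [← L_at, L_bt]
  rw [h1]
  exact D_lt' y bt bt rfl

lemma D_at_val (y : Y f m) : (D (at' y : P (S f k m))).val =
    [(S f k m).sm ((S f k m).phi ((S f k m).gx y)) ((S f k m).bp y)] := by
  rw [D_at, T_neg (by simp [bt])]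
  rfl

lemma exists_D (r : P (S f k m)) : ∃ s, D r = sh 1 s ∧ rk s = rk r := by
  have : Nonempty (Y f m) := ⟨Sum.inl 0⟩
  obtain ⟨s, hs⟩ := De_le_D r
  refine ⟨s, by rw [← hs, L_De], ?_⟩
  have h1 := congrArg rk hs
  rw [rk_L, rk_D, rk_De] at h1
  omega

/-- Short elements above `x` have a partner above `x'`. -/
lemma agree (hk : 1 ≤ k) {x x' : Y f m} (h : D (at' x : P (S f k m)) = D (at' x'))
    {p : P (S f k m)} (hp : at' x ≤ p) (hr : rk p ≤ 2 * k) :
    ∃ p' : P (S f k m), at' x' ≤ p' ∧ D p' = D p := by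
  obtain ⟨r, hr1⟩ := hp
  rw [L_at] at hr1
  subst hr1
  rw [rk_lt'] at hr
  obtain ⟨s, hs1, hs2⟩ := exists_D r
  have h1 := congrArg P.val h
  rw [D_at_val, D_at_val] at h1
  have h2 := (List.cons.inj h1).1
  refine ⟨lt x' r, le_L (at' x') r, ?_⟩
  rw [D_lt' _ _ _ hs1, D_lt' _ _ _ hs1]
  rcases x with x | x <;> rcases x' with x' | x'
  · have h5 := A_gx_short (m := m) hk x s (by omega)
    have h6 := A_gx_short (m := m) hk x' s (by omega)
    exact congrArg (sh 1) (h6.trans h5.symm)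
  · exact absurd h2 (by simp [S])
  · exact absurd h2 (by simp [S])
  · have h3 : x = x' := Sum.inr_injective h2
    rw [h3]

/-- All letters of the first kind are zero. -/
def B0 (s : P (S f k m)) : Prop := ∀ x : ZMod f, Sum.inl x ∈ s.val → x = 0

lemma B0_T (y : Y f m) (s : P (S f k m)) (h : B0 s) : B0 (T y s) := by
  by_cases h1 : s.val.head? = some ((S f k m).bp y)
  · rw [T_pos h1]
    intro x hx
    exact h x (List.mem_of_mem_tail hx)
  · rw [T_neg h1]
    intro x hx
    have hx' : Sum.inl x ∈ (S f k m).bp y :: s.val := hx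
    rw [List.mem_cons] at hx'
    rcases hx' with hx' | hx'
    · rcases y with y | y
      · exact Sum.inl_injective hx'
      · exact absurd hx' (by simp [S])
    · exact h x hx'

lemma B0_D (hk : 1 ≤ k) (r : P (S f k m)) : rk r ≤ 2 * k →
    ∃ s, D r = sh 1 s ∧ rk s = rk r ∧ B0 s := by
  have : Nonempty (Y f m) := ⟨Sum.inl 0⟩
  refine ind (C := fun r => rk r ≤ 2 * k → ∃ s, D r = sh 1 s ∧ rk s = rk r ∧ B0 s) ?_ ?_ r
  · intro _
    exact ⟨bt, rfl, rfl, fun x hx => absurd hx (by simp [bt])⟩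
  · intro y l ih hy
    rw [rk_lt'] at hy
    obtain ⟨s, h1, h2, h3⟩ := ih (by omega)
    refine ⟨_, D_lt' y l s h1, ?_, ?_⟩
    · rw [rk_A, rk_T, h2, rk_lt']
    · rcases y with y | y
      · have h5 := A_gx_short (m := m) hk y s (by omega)
        change B0 (A (ph k (gx y)) (T (Sum.inl y) s))
        rw [h5]
        exact B0_T _ _ h3
      · change B0 (A (ph k 1) (T (Sum.inr y) s))
        rw [ph_one, A_one]
        exact B0_T _ _ h3

/-- The alternating word. -/
def yx : ℕ → List (Y f (m + 1))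
  | 0 => []
  | j + 1 => Sum.inr 0 :: Sum.inl 0 :: yx j

/-- The alternating word with another last letter. -/
def zz : ℕ → ZMod f → List (Y f (m + 1))
  | 0, c => [Sum.inr 0, Sum.inl c]
  | j + 1, c => Sum.inr 0 :: Sum.inl 0 :: zz j c

lemma length_yx (j : ℕ) : (yx j : List (Y f (m + 1))).length = 2 * j := by
  induction j with
  | zero => rfl
  | succ j ih => simp [yx, ih]; omega

lemma mem_zz (j : ℕ) (c : ZMod f) : (Sum.inl c : Y f (m + 1)) ∈ zz j c := by
  induction j with
  | zero => simp [zz]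
  | succ j ih => exact List.mem_cons_of_mem _ (List.mem_cons_of_mem _ ih)

lemma RD_x (l : List (Y f (m + 1))) (hl : l.head? ≠ some (Sum.inl 0)) (h : RD (S f k (m + 1)) l) :
    RD (S f k (m + 1)) (Sum.inl 0 :: l) := ⟨hl, h⟩

lemma head_yx (j : ℕ) : (yx j : List (Y f (m + 1))).head? ≠ some (Sum.inl 0) := by
  cases j <;> simp [yx]

lemma RD_yx (j : ℕ) : RD (S f k (m + 1)) (yx j) := by
  induction j with
  | zero => exact trivial
  | succ j ih =>
    refine ⟨?_, RD_x _ (head_yx j) ih⟩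
    change some (Sum.inl 0) ≠ some (Sum.inr 0)
    simp

lemma D_yx (j : ℕ) : D (⟨0, yx j, RD_yx j⟩ : P (S f k (m + 1))) = sh 1 ⟨0, yx j, RD_yx j⟩ := by
  induction j with
  | zero => rfl
  | succ j ih =>
    have h1 := lt_cons (S := S f k (m + 1)) (x := Sum.inl 0) (l := yx j)
      (RD_x _ (head_yx j) (RD_yx j))
    have h2 := lt_cons (S := S f k (m + 1)) (x := Sum.inr 0) (l := Sum.inl 0 :: yx j)
      (RD_yx (j + 1))
    have h3 : D (lt (Sum.inl 0) (⟨0, yx j, RD_yx j⟩ : P (S f k (m + 1)))) =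
        sh 1 (lt (Sum.inl 0) ⟨0, yx j, RD_yx j⟩) := by
      rw [D_lt' _ _ _ ih]
      change sh 1 (A (ph k (gx 0)) (T _ _)) = sh 1 (A (gx 0) (T _ _))
      rw [gx_zero, ph_one]
    rw [h1] at h3
    have h4 : D (lt (Sum.inr 0) (⟨0, Sum.inl 0 :: yx j, (RD_yx (j + 1)).2⟩ : P (S f k (m + 1)))) =
        sh 1 (lt (Sum.inr 0) ⟨0, Sum.inl 0 :: yx j, (RD_yx (j + 1)).2⟩) := by
      rw [D_lt' _ _ _ h3]
      change sh 1 (A (ph k 1) (T _ _)) = sh 1 (A 1 (T _ _))
      rw [ph_one]
    rw [h2] at h4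
    exact h4

lemma ta_yx (c : ZMod f) (j : ℕ) : ta (S f k (m + 1)) (est j c) (yx (j + 1)) = zz j c := by
  induction j with
  | zero =>
    change [Sum.inr 0, Sum.inl ((0 : ZMod f) + (est 0 c).b 0)] = [Sum.inr 0, Sum.inl c]
    simp [est]
  | succ j ih =>
    have h0 : ta (S f k (m + 1)) (est (j + 1) c) (yx (j + 1 + 1)) =
      Sum.inr 0 :: Sum.inl ((0 : ZMod f) + (est (j + 1) c).b 0) ::
        ta (S f k (m + 1)) (sx k (sy k (est (j + 1) c))) (yx (j + 1)) := rfl
    have h1 : sx k (sy k (est (j + 1) c)) = est j c := by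
      ext n
      · simp [sx, sy, est]
      · simp [sx, sy, est]
    have h2 : (est (j + 1) c).b 0 = 0 := by simp [est]
    rw [h0, h1, ih, h2, add_zero]
    rfl

variable [Fact (1 < f)]

/-- Some element of rank `2 k + 1` has no partner. -/
lemma differ (hk : 1 ≤ k) : ∃ (x x' : Y f (m + 1)) (p : P (S f k (m + 1))),
    D (at' x : P (S f k (m + 1))) = D (at' x') ∧ at' x ≤ p ∧ rk p = 2 * k + 1 ∧
    ∀ p' : P (S f k (m + 1)), at' x' ≤ p' → D p' ≠ D p := by
  refine ⟨Sum.inl 1, Sum.inl 0, lt (Sum.inl 1) ⟨0, yx k, RD_yx _⟩, ?_, le_L _ _, ?_, ?_⟩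
  · rw [D_at, D_at]
    have h5 := A_gx_short (m := m + 1) hk (1 : ZMod f) bt (by simp)
    have h6 := A_gx_short (m := m + 1) hk (0 : ZMod f) bt (by simp)
    exact congrArg (sh 1) (h5.trans h6.symm)
  · rw [rk_lt']
    simp [rk, length_yx]
  · rintro p' ⟨r, rfl⟩ he
    rw [L_at] at he
    obtain ⟨s, h1, h2⟩ := exists_D r
    rw [D_lt' _ _ _ h1, D_lt' _ _ _ (D_yx _)] at he
    have h3 := sh_injective 1 he
    change A (ph k (gx 0)) (T (Sum.inl 0) s) = A (ph k (gx 1)) (T (Sum.inl 1) _) at h3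
    rw [gx_zero, ph_one, A_one, A_gx hk] at h3
    have h5 := T_injective _ h3
    obtain ⟨j, hj⟩ : ∃ j, k = j + 1 := ⟨k - 1, by omega⟩
    have h6 : s.val = zz j 1 := by
      rw [h5]
      change ta (S f k (m + 1)) (est (k - 1) 1) (yx k) = _
      subst hj
      rw [Nat.add_sub_cancel, ta_yx]
    have h7 : rk s = 2 * k := by
      rw [h5, rk_A]
      simp [rk, length_yx]
    obtain ⟨s', h8, _, h9⟩ := B0_D hk r (by omega)
    have h10 : s = s' := sh_injective 1 (h1.symm.trans h8)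
    have h11 := h9 1 (by rw [← h10, h6]; exact mem_zz _ _)
    exact absurd h11 (by simp)

/-- The orders with different parameters are not isomorphic. -/
theorem not_iso {k' : ℕ} (hk : 1 ≤ k) (h : k < k') :
    IsEmpty (P (S f k (m + 1)) ≃o P (S f k' (m + 1))) := by
  refine ⟨fun α => ?_⟩
  have : Nontrivial (Y f (m + 1)) := ⟨Sum.inl 0, Sum.inr 0, by simp⟩
  obtain ⟨x, x', p, h1, h2, h3, h4⟩ := differ (f := f) (m := m) hk
  obtain ⟨y, hy⟩ := exists_at (p := α (at' x)) (by rw [rk_iso, rk_at])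
  obtain ⟨y', hy'⟩ := exists_at (p := α (at' x')) (by rw [rk_iso, rk_at])
  have h5 : D (at' y : P (S f k' (m + 1))) = D (at' y') := by
    rw [← hy, ← hy', ← iso_D, ← iso_D, h1]
  have h6 : at' y ≤ α p := by rw [← hy]; exact α.monotone h2
  obtain ⟨r, hr1, hr2⟩ := agree (by omega) h5 h6 (by rw [rk_iso]; omega)
  refine h4 (α.symm r) ?_ ?_
  · rw [α.le_symm_apply, hy']
    exact hr1
  · apply α.injective
    rw [iso_D, α.apply_symm_apply, hr2, iso_D]

/-- No associative, left-cancellative multiplication has the order as its left divisibility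
order. -/
theorem no_mul (hk : 1 ≤ k)
    (mul : P (S f k (m + 1)) → P (S f k (m + 1)) → P (S f k (m + 1)))
    (hass : ∀ a b c, mul (mul a b) c = mul a (mul b c))
    (hcan : ∀ a b c, mul a b = mul a c → b = c)
    (hle : ∀ a b, a ≤ b ↔ ∃ c, mul a c = b) : False := by
  have : Nontrivial (Y f (m + 1)) := ⟨Sum.inl 0, Sum.inr 0, by simp⟩
  obtain ⟨x, x', p, h1, h2, h3, h4⟩ := differ (f := f) (m := m) hk
  exact not_mul mul hass hcan hle h1 h2 h4

end Pool.Agent.Y29.UR
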