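import Pool.Agent.Y29.UQ.Order

/-!
The concrete data: the letters are `ZMod f` and `m` further letters; the group consists of the
pairs of formal power series over `ZMod f`.
-/

namespace Pool.Agent.Y29.UR

open Pool.Agent.Y29.UQ

set_option linter.unusedSectionVars false
set_option linter.unusedVariables false

variable {f : ℕ}

/-- Pairs of power series, written multiplicatively. -/
@[ext] structure E (f : ℕ) where
  /-- first series -/
  a : ℕ → ZMod f
  /-- second series -/
  b : ℕ → ZMod f

namespace E

instance : One (E f) := ⟨⟨fun _ => 0, fun _ => 0⟩⟩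
instance : Mul (E f) := ⟨fun g h => ⟨fun n => g.a n + h.a n, fun n => g.b n + h.b n⟩⟩
instance : Inv (E f) := ⟨fun g => ⟨fun n => -g.a n, fun n => -g.b n⟩⟩

@[simp] lemma one_a (n : ℕ) : (1 : E f).a n = 0 := rfl
@[simp] lemma one_b (n : ℕ) : (1 : E f).b n = 0 := rfl
@[simp] lemma mul_a (g h : E f) (n : ℕ) : (g * h).a n = g.a n + h.a n := rfl
@[simp] lemma mul_b (g h : E f) (n : ℕ) : (g * h).b n = g.b n + h.b n := rfl
@[simp] lemma inv_a (g : E f) (n : ℕ) : (g⁻¹).a n = -g.a n := rfl
@[simp] lemma inv_b (g : E f) (n : ℕ) : (g⁻¹).b n = -g.b n := rfl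

instance : Group (E f) := Group.ofLeftAxioms
  (by intro a b c; ext <;> simp [add_assoc])
  (by intro a; ext <;> simp)
  (by intro a; ext <;> simp)

end E

/-- Multiplication by the power `z ^ k`. -/
def ph (k : ℕ) (g : E f) : E f :=
  ⟨fun n => if k ≤ n then g.a (n - k) else 0, fun n => if k ≤ n then g.b (n - k) else 0⟩

/-- Section at the letters of the first kind. -/
def sx (k : ℕ) (g : E f) : E f :=
  ⟨fun n => if k + 1 ≤ n then g.b (n - (k + 1)) else 0, fun n => g.a (n + 1)⟩

/-- Section at the letters of the second kind. -/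
def sy (k : ℕ) (g : E f) : E f := ⟨g.b, fun n => if k ≤ n then g.a (n - k) else 0⟩

/-- Transversal. -/
def gx (x : ZMod f) : E f := ⟨fun n => if n = 0 then x else 0, fun _ => 0⟩

lemma ph_one (k : ℕ) : ph k (1 : E f) = 1 := by ext <;> simp [ph]
lemma sx_one (k : ℕ) : sx k (1 : E f) = 1 := by ext <;> simp [sx]
lemma sy_one (k : ℕ) : sy k (1 : E f) = 1 := by ext <;> simp [sy]
lemma ph_mul (k : ℕ) (g h : E f) : ph k (g * h) = ph k g * ph k h := by
  ext n <;> simp only [ph, E.mul_a, E.mul_b] <;> split_ifs <;> simp
lemma sx_mul (k : ℕ) (g h : E f) : sx k (g * h) = sx k g * sx k h := by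
  ext n <;> simp only [sx, E.mul_a, E.mul_b]
  split_ifs <;> simp
lemma sy_mul (k : ℕ) (g h : E f) : sy k (g * h) = sy k g * sy k h := by
  ext n <;> simp only [sy, E.mul_a, E.mul_b]
  split_ifs <;> simp

lemma sx_gx (k : ℕ) (x : ZMod f) : sx k (gx x) = 1 := by
  ext n <;> simp [sx, gx]

lemma gx_zero : gx (0 : ZMod f) = 1 := by
  ext n <;> simp [gx]

lemma sx_sx (k : ℕ) (g : E f) (h : g.a 0 = 0) : sx k (sx k g) = ph k g := by
  ext n
  · simp only [sx, ph]
    rcases lt_trichotomy n k with h1 | h1 | h1
    · rw [if_neg (by omega), if_neg (by omega)]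
    · subst h1
      rw [if_neg (by omega), if_pos le_rfl, Nat.sub_self, h]
    · rw [if_pos (by omega), if_pos (by omega)]
      congr 1; omega
  · simp only [sx, ph]
    by_cases h1 : k ≤ n
    · rw [if_pos (by omega), if_pos h1]
      congr 1; omega
    · rw [if_neg (by omega), if_neg h1]

lemma sy_sy (k : ℕ) (g : E f) : sy k (sy k g) = ph k g := rfl

lemma sx_ph (k : ℕ) (g : E f) (h : g.a 0 = 0) : sx k (ph k g) = ph k (sx k g) := by
  ext n
  · simp only [sx, ph]
    by_cases h1 : 2 * k + 1 ≤ n
    · rw [if_pos (by omega), if_pos (by omega), if_pos (by omega), if_pos (by omega)]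
      congr 1; omega
    · by_cases h2 : k + 1 ≤ n
      · rw [if_pos h2, if_neg (by omega), if_pos (by omega), if_neg (by omega)]
      · rw [if_neg h2]
        by_cases h3 : k ≤ n
        · rw [if_pos h3, if_neg (by omega)]
        · rw [if_neg h3]
  · simp only [sx, ph]
    rcases lt_trichotomy (n + 1) k with h1 | h1 | h1
    · rw [if_neg (by omega), if_neg (by omega)]
    · rw [if_pos (by omega), if_neg (by omega), h1, Nat.sub_self, h]
    · rw [if_pos (by omega), if_pos (by omega)]
      congr 1; omega

lemma sy_ph (k : ℕ) (g : E f) : sy k (ph k g) = ph k (sy k g) := rfl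

/-- All letters. -/
abbrev Y (f m : ℕ) := ZMod f ⊕ Fin m

/-- The self-similar data. -/
def S (f k m : ℕ) : SS (E f) (Y f m) where
  sm g := Sum.map (fun x => x + g.a 0) id
  sec g := Sum.elim (fun _ => sx k g) (fun _ => sy k g)
  phi := ph k
  bp := Sum.elim (fun _ => Sum.inl 0) Sum.inr
  gx := Sum.elim gx (fun _ => 1)
  sm_one x := by rcases x with x | x <;> simp
  sm_mul g h x := by
    rcases x with x | x
    · simp; ring
    · simp
  sec_one x := by
    rcases x with x | x
    · exact sx_one k
    · exact sy_one k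
  sec_mul g h x := by
    rcases x with x | x
    · exact sx_mul k g h
    · exact sy_mul k g h
  phi_one := ph_one _
  phi_mul := ph_mul _
  sm_gx x := by
    rcases x with x | x
    · simp [gx]
    · rfl
  sec_gx x := by
    rcases x with x | x
    · exact sx_gx k x
    · exact sy_one k
  gx_bp x := by
    rcases x with x | x
    · exact gx_zero
    · rfl
  bp_sm g x := by rcases x with x | x <;> rfl
  sm_sec g x := by
    rcases x with x | x
    · simp [sx]
    · rfl
  sec_sec g x h := by
    rcases x with x | x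
    · have h1 : (0 : ZMod f) + g.a 0 = 0 := Sum.inl_injective h
      exact sx_sx k g (by simpa using h1)
    · exact sy_sy k g
  sm_phi g x h := by
    rcases x with x | x
    · have h1 : (0 : ZMod f) + g.a 0 = 0 := Sum.inl_injective h
      refine congrArg Sum.inl ?_
      simp only [ph, Nat.zero_sub]
      split_ifs
      · exact h1
      · simp
    · rfl
  sec_phi g x h := by
    rcases x with x | x
    · have h1 : (0 : ZMod f) + g.a 0 = 0 := Sum.inl_injective h
      exact sx_ph k g (by simpa using h1)
    · exact sy_ph k g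

end Pool.Agent.Y29.UR
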